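import Pool.Agent.H.MP_6c73b3_gt.Defs

namespace Pool.Agent.H.MP_6c73b3_gt

open Real Set InnerProductGeometry
open scoped RealInnerProductSpace

theorem inn (x y : E4) : ⟪x, y⟫ = x 0 * y 0 + x 1 * y 1 + x 2 * y 2 + x 3 * y 3 := by
  simp only [PiLp.inner_apply, Fin.sum_univ_four, RCLike.inner_apply, conj_trivial]
  ring

theorem r0 (θ : ℝ) (x : E4) : rot θ x 0 = cos θ * x 0 - sin θ * x 1 := rfl
theorem r1 (θ : ℝ) (x : E4) : rot θ x 1 = sin θ * x 0 + cos θ * x 1 := rfl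
theorem r2 (θ : ℝ) (x : E4) : rot θ x 2 = cos θ * x 2 - sin θ * x 3 := rfl
theorem r3 (θ : ℝ) (x : E4) : rot θ x 3 = sin θ * x 2 + cos θ * x 3 := rfl

theorem ext4 {x y : E4} (h0 : x 0 = y 0) (h1 : x 1 = y 1) (h2 : x 2 = y 2) (h3 : x 3 = y 3) :
    x = y := by
  ext i
  fin_cases i
  exacts [h0, h1, h2, h3]

theorem rot_zero (x : E4) : rot 0 x = x := by
  apply ext4 <;> simp [r0, r1, r2, r3]

theorem rot_add (a b : ℝ) (x : E4) : rot a (rot b x) = rot (a + b) x := by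
  apply ext4 <;> simp only [r0, r1, r2, r3, cos_add, sin_add] <;> ring

theorem rot_inner (a : ℝ) (x y : E4) : ⟪rot a x, rot a y⟫ = ⟪x, y⟫ := by
  simp only [inn, r0, r1, r2, r3]
  linear_combination (x 0 * y 0 + x 1 * y 1 + x 2 * y 2 + x 3 * y 3) * sin_sq_add_cos_sq a

theorem rot_norm (a : ℝ) (x : E4) : ‖rot a x‖ = ‖x‖ := by
  rw [norm_eq_sqrt_real_inner, rot_inner, ← norm_eq_sqrt_real_inner]

theorem rot_angle (a : ℝ) (x y : E4) : angle (rot a x) (rot a y) = angle x y := by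
  simp only [angle, rot_inner, rot_norm]

theorem inner_rot (a : ℝ) (x : E4) : ⟪x, rot a x⟫ = cos a * ⟪x, x⟫ := by
  simp only [inn, r0, r1, r2, r3]
  ring

variable {p : ℕ}

theorem Same.refl (x : E4) : Same p x x := ⟨0, by simp [rot_zero]⟩

theorem Same.trans {x y z : E4} (h : Same p x y) (h' : Same p y z) : Same p x z := by
  obtain ⟨k, rfl⟩ := h
  obtain ⟨l, rfl⟩ := h'
  refine ⟨l + k, ?_⟩
  rw [rot_add]
  congr 1
  push_cast
  ring

theorem Same.symm {x y : E4} (h : Same p x y) : Same p y x := by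
  obtain ⟨k, rfl⟩ := h
  refine ⟨-k, ?_⟩
  rw [rot_add]
  push_cast
  rw [show 2 * π * -(k : ℝ) / p + 2 * π * k / p = 0 by ring, rot_zero]

theorem Same.norm {x y : E4} (h : Same p x y) : ‖y‖ = ‖x‖ := by
  obtain ⟨k, rfl⟩ := h
  exact rot_norm _ _

theorem orbit_finite (hp : 0 < p) (x : E4) : {y | Same p x y}.Finite := by
  refine ((finite_Ico (0 : ℤ) p).image fun k : ℤ => rot (2 * π * k / p) x).subset ?_
  rintro y ⟨k, rfl⟩
  have hp' : (0 : ℤ) < p := by exact_mod_cast hp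
  refine ⟨k % p, ⟨Int.emod_nonneg _ hp'.ne', Int.emod_lt_of_pos _ hp'⟩, ?_⟩
  have e : 2 * π * k / p = 2 * π * ((k % p : ℤ) : ℝ) / p + ((k / p : ℤ) : ℝ) * (2 * π) := by
    have h1 : (k : ℝ) = ((k % p : ℤ) : ℝ) + p * ((k / p : ℤ) : ℝ) := by
      exact_mod_cast (Int.emod_add_mul_ediv k p).symm
    have : (p : ℝ) ≠ 0 := by positivity
    rw [h1]
    field_simp
  simp only [rot, e, cos_add_int_mul_two_pi, sin_add_int_mul_two_pi]

theorem dset_finite (hp : 0 < p) (x y : E4) :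
    {d | ∃ y', Same p y y' ∧ d = angle x y'}.Finite := by
  refine ((orbit_finite hp y).image (angle x)).subset ?_
  rintro d ⟨y', h, rfl⟩
  exact ⟨y', h, rfl⟩

theorem ldist_le (hp : 0 < p) {x y y' : E4} (h : Same p y y') : ldist p x y ≤ angle x y' :=
  csInf_le (dset_finite hp x y).bddBelow ⟨y', h, rfl⟩

theorem exists_min (hp : 0 < p) (x y : E4) : ∃ y', Same p y y' ∧ ldist p x y = angle x y' :=
  Set.Nonempty.csInf_mem (s := {d | ∃ y', Same p y y' ∧ d = angle x y'})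
    ⟨_, y, Same.refl y, rfl⟩ (dset_finite hp x y)

theorem ldist_tri (hp : 0 < p) (x y z : E4) : ldist p x z ≤ ldist p x y + ldist p y z := by
  obtain ⟨y', ⟨k, rfl⟩, e1⟩ := exists_min hp x y
  obtain ⟨z', hz, e2⟩ := exists_min hp y z
  rw [e1, e2, ← rot_angle (2 * π * k / p) y z']
  exact (ldist_le hp (hz.trans ⟨k, rfl⟩)).trans (angle_le_angle_add_angle _ _ _)

theorem ldist_symm_le (hp : 0 < p) (x y : E4) : ldist p y x ≤ ldist p x y := by
  obtain ⟨y', ⟨k, rfl⟩, e1⟩ := exists_min hp x y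
  rw [e1, ← rot_angle (2 * π * (-k : ℤ) / p), rot_add, angle_comm]
  push_cast
  rw [show 2 * π * -(k : ℝ) / p + 2 * π * k / p = 0 by ring, rot_zero]
  exact ldist_le hp ⟨-k, by push_cast; rfl⟩

theorem ldist_symm (hp : 0 < p) (x y : E4) : ldist p x y = ldist p y x :=
  le_antisymm (ldist_symm_le hp y x) (ldist_symm_le hp x y)

theorem angle_unit {x y : E4} (hx : ‖x‖ = 1) (hy : ‖y‖ = 1) : angle x y = arccos ⟪x, y⟫ := by
  simp [angle, hx, hy]

theorem exists_arc {x y : E4} (hx : ‖x‖ = 1) (hy : ‖y‖ = 1) :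
    ∃ γ : ℝ → E4, Continuous γ ∧ γ 0 = x ∧ γ 1 = y ∧ (∀ t, ‖γ t‖ = 1) ∧
      ∀ s ∈ Icc (0 : ℝ) 1, ∀ t ∈ Icc (0 : ℝ) 1, angle (γ s) (γ t) = |s - t| * angle x y := by
  have xx : ⟪x, x⟫ = 1 := by rw [real_inner_self_eq_norm_sq, hx]; norm_num
  have yy : ⟪y, y⟫ = 1 := by rw [real_inner_self_eq_norm_sq, hy]; norm_num
  set d := angle x y with hd
  have cd : cos d = ⟪x, y⟫ := by rw [hd, cos_angle, hx, hy]; simp
  have sc := sin_sq_add_cos_sq d
  obtain ⟨e, ee, xe, he⟩ : ∃ e : E4, ⟪e, e⟫ = 1 ∧ ⟪x, e⟫ = 0 ∧ y = cos d • x + sin d • e := by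
    have w2 : ⟪y - cos d • x, y - cos d • x⟫ = sin d ^ 2 := by
      simp only [inner_sub_left, inner_sub_right, real_inner_smul_left, real_inner_smul_right, xx,
        yy, real_inner_comm x y, ← cd]
      linear_combination -sc
    by_cases hs : sin d = 0
    · refine ⟨rot (π / 2) x, by rw [rot_inner, xx], by rw [inner_rot]; simp, ?_⟩
      rw [hs, zero_smul, add_zero]
      rw [hs] at w2
      exact sub_eq_zero.1 (inner_self_eq_zero.1 (w2.trans (by norm_num)))
    · refine ⟨(sin d)⁻¹ • (y - cos d • x), ?_, ?_, ?_⟩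
      · rw [real_inner_smul_left, real_inner_smul_right, w2]
        field_simp
      · rw [real_inner_smul_right, inner_sub_right, real_inner_smul_right, xx, cd]
        ring
      · rw [smul_smul, mul_inv_cancel₀ hs]
        simp
  have ip : ∀ s t : ℝ, ⟪cos (s * d) • x + sin (s * d) • e, cos (t * d) • x + sin (t * d) • e⟫ =
      cos (|s - t| * d) := by
    intro s t
    have : cos (|s - t| * d) = cos (s * d - t * d) := by
      rw [← cos_abs (s * d - t * d), ← sub_mul, abs_mul, abs_of_nonneg (angle_nonneg x y)]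
    rw [this, cos_sub]
    simp only [inner_add_left, inner_add_right, real_inner_smul_left, real_inner_smul_right, xx,
      ee, xe, real_inner_comm x e]
    ring
  have nn : ∀ t : ℝ, ‖cos (t * d) • x + sin (t * d) • e‖ = 1 := by
    intro t
    rw [norm_eq_sqrt_real_inner, ip]
    simp
  refine ⟨fun t => cos (t * d) • x + sin (t * d) • e, by fun_prop, by simp, by simp [← he], nn, ?_⟩
  intro s hs t ht
  rw [angle_unit (nn s) (nn t), ip]
  have h1 : |s - t| ≤ 1 := abs_le.2 ⟨by linarith [hs.1, ht.2], by linarith [hs.2, ht.1]⟩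
  have h2 := angle_nonneg x y
  have h3 := angle_le_pi x y
  refine arccos_cos (by positivity) ?_
  nlinarith [abs_nonneg (s - t)]

theorem arc_geo (hp : 0 < p) {x y y' : E4} (hy : Same p y y') (hm : ldist p x y = angle x y')
    {γ : ℝ → E4} (h0 : γ 0 = x) (h1 : γ 1 = y') (hn : ∀ t, ‖γ t‖ = 1)
    (ha : ∀ s ∈ Icc (0 : ℝ) 1, ∀ t ∈ Icc (0 : ℝ) 1, angle (γ s) (γ t) = |s - t| * angle x y') :
    IsMinGeo p γ x y := by
  refine ⟨fun t _ => hn t, h0 ▸ Same.refl _, h1 ▸ hy, ?_⟩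
  have key : ∀ s ∈ Icc (0 : ℝ) 1, ∀ t ∈ Icc (0 : ℝ) 1, s ≤ t →
      ldist p (γ s) (γ t) = |s - t| * ldist p x y := by
    intro s hs t ht hst
    refine le_antisymm ?_ ?_
    · rw [hm, ← ha s hs t ht]
      exact ldist_le hp (Same.refl _)
    · have a1 := ldist_tri hp x (γ s) y
      have a2 := ldist_tri hp (γ s) (γ t) y
      have a3 : ldist p x (γ s) ≤ angle (γ 0) (γ s) := by
        rw [h0]; exact ldist_le hp (Same.refl _)
      have a4 : ldist p (γ t) y ≤ angle (γ t) (γ 1) := by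
        rw [h1]; exact ldist_le hp hy
      rw [ha 0 (by simp) s hs, ← hm, abs_sub_comm, abs_of_nonneg (by linarith [hs.1])] at a3
      rw [ha t ht 1 (by simp), ← hm, abs_sub_comm, abs_of_nonneg (by linarith [ht.2])] at a4
      rw [abs_sub_comm, abs_of_nonneg (by linarith)]
      linarith
  intro s hs t ht
  rcases le_total s t with h | h
  · exact key s hs t ht h
  · rw [ldist_symm hp, abs_sub_comm]
    exact key t ht s hs h

end Pool.Agent.H.MP_6c73b3_gt
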