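import Mathlib

namespace Pool.Agent.H.MP_6c73b3_gt

open Real

abbrev E4 := EuclideanSpace ℝ (Fin 4)

noncomputable def rot (θ : ℝ) (x : E4) : E4 :=
  !₂[cos θ * x 0 - sin θ * x 1, sin θ * x 0 + cos θ * x 1,
    cos θ * x 2 - sin θ * x 3, sin θ * x 2 + cos θ * x 3]

def Same (p : ℕ) (x y : E4) : Prop := ∃ k : ℤ, y = rot (2 * π * k / p) x

noncomputable def ldist (p : ℕ) (x y : E4) : ℝ :=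
  sInf {d | ∃ y', Same p y y' ∧ d = InnerProductGeometry.angle x y'}

def IsMinGeo (p : ℕ) (γ : ℝ → E4) (x y : E4) : Prop :=
  (∀ t ∈ Set.Icc (0 : ℝ) 1, ‖γ t‖ = 1) ∧ Same p x (γ 0) ∧ Same p y (γ 1) ∧
    ∀ s ∈ Set.Icc (0 : ℝ) 1, ∀ t ∈ Set.Icc (0 : ℝ) 1,
      ldist p (γ s) (γ t) = |s - t| * ldist p x y

def IsConvexIn (p : ℕ) (Γ : Set E4) : Prop :=
  (∀ x ∈ Γ, ‖x‖ = 1 ∧ ∀ y, Same p x y → y ∈ Γ) ∧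
    ∀ x ∈ Γ, ∀ y ∈ Γ, ∃ γ, IsMinGeo p γ x y ∧ (∀ t ∈ Set.Icc (0 : ℝ) 1, γ t ∈ Γ) ∧
      ∀ γ', IsMinGeo p γ' x y → ∀ t ∈ Set.Icc (0 : ℝ) 1, Same p (γ t) (γ' t)

end Pool.Agent.H.MP_6c73b3_gt
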