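import Pool.Agent.H.MP_6c73b3_gt.A

namespace Pool.Agent.H.MP_6c73b3_gt

open Real Set InnerProductGeometry MeasureTheory Filter Topology
open scoped RealInnerProductSpace Pointwise

variable {p : ℕ} {Γ : Set E4}

def Best (p : ℕ) (x z : E4) : Prop := ∀ w, Same p z w → ⟪x, w⟫ ≤ ⟪x, z⟫

theorem best_min (hp : 0 < p) {x y z : E4} (hx : ‖x‖ = 1) (hy : ‖y‖ = 1) (hz : Same p y z)
    (h : Best p x z) : ldist p x y = angle x z := by
  refine le_antisymm (ldist_le hp hz) ?_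
  obtain ⟨w, hw, e⟩ := exists_min hp x y
  rw [e, angle_unit hx (hz.norm.trans hy), angle_unit hx (hw.norm.trans hy)]
  exact arccos_le_arccos (h w (hz.symm.trans hw))

theorem exists_best (hp : 0 < p) (x y : E4) : ∃ z, Same p y z ∧ Best p x z := by
  obtain ⟨z, hz, h⟩ := (orbit_finite hp y).exists_maximalFor (fun w => ⟪x, w⟫) _ ⟨y, Same.refl y⟩
  refine ⟨z, hz, fun w hw => ?_⟩
  rcases le_total ⟪x, w⟫ ⟪x, z⟫ with h1 | h1
  · exact h1
  · exact h (hz.trans hw) h1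

theorem best_unique (hp : 0 < p) (h : IsConvexIn p Γ) {x z z' : E4} (hx : x ∈ Γ) (hz : z ∈ Γ)
    (hs : Same p z z') (b : Best p x z) (b' : Best p x z') : z = z' := by
  have nx := (h.1 x hx).1
  have nz := (h.1 z hz).1
  have nz' := hs.norm.trans nz
  obtain ⟨γ, -, -, hu⟩ := h.2 x hx z hz
  obtain ⟨α, αc, α0, α1, αn, αa⟩ := exists_arc nx nz
  obtain ⟨β, βc, β0, β1, βn, βa⟩ := exists_arc nx nz'
  have ga := arc_geo hp (Same.refl z) (best_min hp nx nz (Same.refl z) b) α0 α1 αn αa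
  have gb := arc_geo hp hs (best_min hp nx nz hs b') β0 β1 βn βa
  have cnt : (range fun k : ℤ => cos (2 * π * k / p)).Countable := countable_range _
  have pre : IsPreconnected ((fun t => ⟪α t, β t⟫) '' Icc (0 : ℝ) 1) :=
    isPreconnected_Icc.image _ (αc.inner βc).continuousOn
  have sub := cnt.isTotallyDisconnected _ (by
    rintro _ ⟨t, ht, rfl⟩
    obtain ⟨k, hk⟩ := (hu α ga t ht).symm.trans (hu β gb t ht)
    refine ⟨k, ?_⟩
    simp only [hk, inner_rot, real_inner_self_eq_norm_sq, αn]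
    ring) pre
  have e := sub (mem_image_of_mem _ (show (1 : ℝ) ∈ Icc (0 : ℝ) 1 by simp))
    (mem_image_of_mem _ (show (0 : ℝ) ∈ Icc (0 : ℝ) 1 by simp))
  simp only [α0, α1, β0, β1, real_inner_self_eq_norm_sq, nx, one_pow] at e
  exact (inner_eq_one_iff_of_norm_eq_one nz nz').1 e

theorem best_trans (hp : 0 < p) (h : IsConvexIn p Γ) {a y z : E4} (ha : a ∈ Γ) (hy : y ∈ Γ)
    (hz : z ∈ Γ) (b : Best p a y) (b' : Best p a z) : Best p y z := by
  have na := (h.1 a ha).1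
  have ny := (h.1 y hy).1
  obtain ⟨γ, -, hγ, hu⟩ := h.2 a ha y hy
  obtain ⟨α, αc, α0, α1, αn, αa⟩ := exists_arc na ny
  have ga := arc_geo hp (Same.refl y) (best_min hp na ny (Same.refl y) b) α0 α1 αn αa
  have inΓ : ∀ t ∈ Icc (0 : ℝ) 1, α t ∈ Γ := fun t ht => (h.1 _ (hγ t ht)).2 _ (hu α ga t ht)
  have cl : ∀ w, IsClosed {t | Best p (α t) w} := by
    intro w
    simp only [Best, setOf_forall]
    exact isClosed_iInter fun v => isClosed_iInter fun _ =>
      isClosed_le (αc.inner continuous_const) (αc.inner continuous_const)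
  have cl2 : IsClosed (⋃ w ∈ {w | Same p z w} \ {z}, {t | Best p (α t) w}) :=
    ((orbit_finite hp z).subset diff_subset).isClosed_biUnion fun w _ => cl w
  have := isPreconnected_iff_subset_of_disjoint_closed.1 (isPreconnected_Icc (a := (0 : ℝ)) (b := 1))
    _ _ (cl z) cl2 (by
      intro t _
      obtain ⟨w, hw, bw⟩ := exists_best hp (α t) z
      by_cases e : w = z
      · exact Or.inl (e ▸ bw)
      · exact Or.inr (mem_biUnion (show w ∈ {w | Same p z w} \ {z} from ⟨hw, e⟩) bw)) (by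
      rw [eq_empty_iff_forall_notMem]
      rintro t ⟨ht, h1, h2⟩
      obtain ⟨w, ⟨hw, e⟩, bw⟩ := mem_iUnion₂.1 h2
      exact e (best_unique hp h (inΓ t ht) hz hw h1 bw).symm)
  rcases this with h1 | h1
  · have := h1 (show (1 : ℝ) ∈ Icc (0 : ℝ) 1 by simp)
    rwa [mem_setOf_eq, α1] at this
  · obtain ⟨w, ⟨hw, e⟩, bw⟩ := mem_iUnion₂.1 (h1 (show (0 : ℝ) ∈ Icc (0 : ℝ) 1 by simp))
    rw [mem_setOf_eq, α0] at bw
    exact absurd (best_unique hp h ha hz hw b' bw).symm e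

def om (x y : E4) : ℝ := x 0 * y 1 - x 1 * y 0 + x 2 * y 3 - x 3 * y 2

theorem best_om {y z : E4} (ny : ‖y‖ = 1) (nz : ‖z‖ = 1) (b : Best p y z) :
    sin (2 * π / p) * |om y z| ≤ 1 - cos (2 * π / p) := by
  have h1 := b _ ⟨1, rfl⟩
  have h2 := b _ ⟨-1, rfl⟩
  have h3 : ⟪y, z⟫ ≤ 1 := by
    have := real_inner_le_norm y z
    rwa [ny, nz, one_mul] at this
  push_cast at h1 h2
  rw [mul_one] at h1
  rw [show 2 * π * -1 / p = -(2 * π / p) by ring] at h2
  simp only [inn, r0, r1, r2, r3, cos_neg, sin_neg] at h1 h2 h3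
  have h4 := cos_le_one (2 * π / p)
  rcases abs_cases (om y z) with ⟨e, -⟩ | ⟨e, -⟩ <;> rw [e] <;> unfold om <;> nlinarith

noncomputable def J (x : E4) : E4 := !₂[-x 1, x 0, -x 3, x 2]
noncomputable def K (x : E4) : E4 := !₂[-x 2, x 3, x 0, -x 1]

noncomputable def QQ (a n y : E4) : ℝ := ⟪a, y⟫ * om n y - om a y * ⟪n, y⟫

theorem QQ_rot (a n y : E4) (θ : ℝ) : QQ a n (rot θ y) = QQ a n y := by
  simp only [QQ, inn, om, r0, r1, r2, r3]
  linear_combination ((a 0 * y 0 + a 1 * y 1 + a 2 * y 2 + a 3 * y 3) *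
    (n 0 * y 1 - n 1 * y 0 + n 2 * y 3 - n 3 * y 2) -
    (a 0 * y 1 - a 1 * y 0 + a 2 * y 3 - a 3 * y 2) *
    (n 0 * y 0 + n 1 * y 1 + n 2 * y 2 + n 3 * y 3)) * sin_sq_add_cos_sq θ

theorem om_J (x y : E4) : ⟪J x, y⟫ = om x y := by
  simp [inn, J, om]
  ring

theorem J_norm (x : E4) : ‖J x‖ = ‖x‖ := by
  rw [norm_eq_sqrt_real_inner, norm_eq_sqrt_real_inner x, inn, inn]
  congr 1
  simp [J]
  ring

theorem abs_inner_le {x y : E4} (nx : ‖x‖ = 1) (ny : ‖y‖ = 1) : |⟪x, y⟫| ≤ 1 := by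
  have := abs_real_inner_le_norm x y
  rwa [nx, ny, one_mul] at this

theorem frame {S : Set E4} {a : E4} (na : ‖a‖ = 1) (hS : ∀ y ∈ S, ‖y‖ = 1) {η : ℝ} (hη : 0 < η)
    (ha : ∀ y ∈ S, |om a y| ≤ η ^ 2) (ho : ∀ y ∈ S, ∀ z ∈ S, |om y z| ≤ η ^ 2) :
    ∃ n : E4, ‖n‖ = 1 ∧ ⟪a, n⟫ = 0 ∧ om a n = 0 ∧ ∀ y ∈ S, |QQ a n y| ≤ 3 * η + η ^ 2 := by
  have aa : a 0 * a 0 + a 1 * a 1 + a 2 * a 2 + a 3 * a 3 = 1 := by
    rw [← inn, real_inner_self_eq_norm_sq, na]; norm_num
  have fin : ∀ n : E4, ‖n‖ = 1 → ∀ y ∈ S, |om n y| ≤ 3 * η → |QQ a n y| ≤ 3 * η + η ^ 2 := by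
    intro n nn y hy h
    have h1 := abs_inner_le na (hS y hy)
    have h2 := abs_inner_le nn (hS y hy)
    have h3 := ha y hy
    refine (abs_sub _ _).trans ?_
    rw [abs_mul, abs_mul]
    have := mul_le_mul h1 h (abs_nonneg _) zero_le_one
    have := mul_le_mul h3 h2 (abs_nonneg _) (sq_nonneg _)
    linarith
  let P : E4 → E4 := fun b => b - ⟪a, b⟫ • a - om a b • J a
  by_cases hb : ∃ b ∈ S, η < ‖P b‖
  · obtain ⟨b, hb, hl⟩ := hb
    have hP : 0 < ‖P b‖ := hη.trans hl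
    have nn : ‖‖P b‖⁻¹ • P b‖ = 1 := by
      rw [norm_smul, norm_inv, norm_norm, inv_mul_cancel₀ hP.ne']
    refine ⟨‖P b‖⁻¹ • P b, nn, ?_, ?_, fun y hy => fin _ nn y hy ?_⟩
    · rw [real_inner_smul_right]
      refine mul_eq_zero_of_right _ ?_
      simp [P, inn, om, J]
      linear_combination -(a 0 * b 0 + a 1 * b 1 + a 2 * b 2 + a 3 * b 3) * aa
    · rw [← om_J, real_inner_smul_right]
      refine mul_eq_zero_of_right _ ?_
      simp [P, inn, om, J]
      linear_combination -(a 0 * b 1 - a 1 * b 0 + a 2 * b 3 - a 3 * b 2) * aa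
    · have e : om (‖P b‖⁻¹ • P b) y =
          ‖P b‖⁻¹ * (om b y - ⟪a, b⟫ * om a y + om a b * ⟪a, y⟫) := by
        generalize ‖P b‖⁻¹ = c
        simp [P, inn, om, J]
        ring
      have h1 := ho b hb y hy
      have h2 := mul_le_mul (abs_inner_le na (hS b hb)) (ha y hy) (abs_nonneg _) zero_le_one
      have h3 := mul_le_mul (ha b hb) (abs_inner_le na (hS y hy)) (abs_nonneg _) (sq_nonneg _)
      have h4 : |om b y - ⟪a, b⟫ * om a y + om a b * ⟪a, y⟫| ≤ 3 * η ^ 2 := by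
        refine (abs_add_le _ _).trans ?_
        have := abs_sub (om b y) (⟪a, b⟫ * om a y)
        rw [abs_mul] at this ⊢
        linarith
      rw [e, abs_mul, abs_of_pos (inv_pos.2 hP), inv_mul_le_iff₀ hP]
      nlinarith
  · push Not at hb
    have nn : ‖K a‖ = 1 := by
      rw [norm_eq_sqrt_real_inner, ← sqrt_one, inn]
      congr 1
      simp [K]
      linear_combination aa
    refine ⟨K a, nn, ?_, ?_, fun y hy => fin _ nn y hy ?_⟩
    · simp [inn, K]
      ring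
    · simp [om, K]
      ring
    · have e : om (K a) y = ⟪J (K a), P y⟫ := by
        simp [P, inn, om, J, K]
        ring
      have := abs_real_inner_le_norm (J (K a)) (P y)
      rw [J_norm, nn, one_mul] at this
      rw [e]
      linarith [hb y hy]

def BB (ε : ℝ) : Set E4 := {y | ‖y‖ ≤ 1 ∧ |y 0 * y 3 - y 1 * y 2| ≤ ε}

theorem BB_closed (ε : ℝ) : IsClosed (BB ε) :=
  IsClosed.and (isClosed_le (by fun_prop) (by fun_prop)) (isClosed_le (by fun_prop) (by fun_prop))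

theorem BB_zero : volume (BB 0) = 0 := by
  have hyp : ∀ i : Fin 4, volume {y : E4 | y i = 0} = 0 := by
    intro i
    refine Measure.addHaar_submodule volume
      (LinearMap.ker (EuclideanSpace.proj i : E4 →L[ℝ] ℝ).toLinearMap) fun h => ?_
    have : EuclideanSpace.single i (1 : ℝ) ∈
        LinearMap.ker (EuclideanSpace.proj i : E4 →L[ℝ] ℝ).toLinearMap := h ▸ Submodule.mem_top
    simp at this
  let g : E4 → E4 := fun s => !₂[s 0, s 0 * s 1, s 2, s 1 * s 2]
  have hg : Differentiable ℝ g := by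
    refine differentiable_euclidean.2 fun i => ?_
    fin_cases i <;> simp [g] <;> fun_prop
  have h2 := addHaar_image_eq_zero_of_differentiableOn_of_addHaar_eq_zero volume
    hg.differentiableOn (hyp 3)
  refine measure_mono_null (fun y hy => ?_) (measure_union_null (hyp 0) h2)
  by_cases h0 : y 0 = 0
  · exact Or.inl h0
  · refine Or.inr ⟨!₂[y 0, y 1 / y 0, y 2, 0], by simp, ?_⟩
    have := abs_nonpos_iff.1 hy.2
    apply ext4 <;> simp [g] <;> field_simp
    linarith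

theorem BB_small {c : ENNReal} (hc : 0 < c) : ∃ ε > 0, volume (BB ε) < c := by
  have fin : volume (BB (1 / ((0 : ℕ) + 1 : ℝ))) ≠ ⊤ :=
    ne_top_of_le_ne_top (measure_closedBall_lt_top (x := (0 : E4)) (r := 1)).ne
      (measure_mono fun y hy => by simpa using hy.1)
  have := tendsto_measure_iInter_atTop (μ := volume) (s := fun n : ℕ => BB (1 / (n + 1 : ℝ)))
    (fun n => (BB_closed _).measurableSet.nullMeasurableSet)
    (fun m n hmn y hy => ⟨hy.1, hy.2.trans (Nat.one_div_le_one_div hmn)⟩) ⟨0, fin⟩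
  have e : ⋂ n : ℕ, BB (1 / (n + 1 : ℝ)) ⊆ BB 0 := by
    intro y hy
    rw [mem_iInter] at hy
    exact ⟨(hy 0).1, ge_of_tendsto' tendsto_one_div_add_atTop_nhds_zero_nat fun n => (hy n).2⟩
  rw [measure_mono_null e BB_zero] at this
  obtain ⟨n, hn⟩ := (this.eventually (gt_mem_nhds hc)).exists
  exact ⟨_, Nat.one_div_pos_of_nat, hn⟩

theorem meas_bound {a n : E4} (na : ‖a‖ = 1) (nn : ‖n‖ = 1) (h1 : ⟪a, n⟫ = 0) (h2 : om a n = 0)
    (ε : ℝ) (hε : 0 ≤ ε) :
    (volume : Measure E4).toSphere (Subtype.val ⁻¹' {y | |QQ a n y| ≤ ε}) ≤ 4 * volume (BB ε) := by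
  have aa : a 0 * a 0 + a 1 * a 1 + a 2 * a 2 + a 3 * a 3 = 1 := by
    rw [← inn, real_inner_self_eq_norm_sq, na]; norm_num
  have bb : n 0 * n 0 + n 1 * n 1 + n 2 * n 2 + n 3 * n 3 = 1 := by
    rw [← inn, real_inner_self_eq_norm_sq, nn]; norm_num
  rw [inn] at h1
  unfold om at h2
  have on : Orthonormal ℝ ![a, J a, n, J n] := by
    rw [orthonormal_iff_ite]
    intro i j
    rw [inn]
    fin_cases i <;> fin_cases j <;> simp [J] <;> linarith
  let b := (basisOfOrthonormalOfCardEqFinrank on (by simp)).toOrthonormalBasis (by simpa using on)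
  have hb : ∀ i y, b.repr y i = ⟪![a, J a, n, J n] i, y⟫ := by
    intro i y
    rw [b.repr_apply_apply]
    simp [b]
  have cl : IsClosed {y : E4 | |QQ a n y| ≤ ε} := by
    refine isClosed_le ?_ continuous_const
    simp only [QQ, om]
    fun_prop
  rw [Measure.toSphere_apply' _ (cl.preimage continuous_subtype_val).measurableSet,
    ← b.repr.measurePreserving.measure_preimage (BB_closed ε).measurableSet.nullMeasurableSet]
  simp only [finrank_euclideanSpace, Fintype.card_fin, Nat.cast_ofNat]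
  gcongr
  rintro _ ⟨r, hr, _, ⟨y, hy, rfl⟩, rfl⟩
  have ny : ‖(y : E4)‖ = 1 := by simpa using y.2
  refine ⟨?_, ?_⟩
  · rw [LinearIsometryEquiv.norm_map, norm_smul, ny, Real.norm_of_nonneg hr.1.le]
    linarith [hr.2]
  · have : b.repr (r • (y : E4)) 0 * b.repr (r • (y : E4)) 3 -
        b.repr (r • (y : E4)) 1 * b.repr (r • (y : E4)) 2 = r ^ 2 * QQ a n y := by
      simp only [hb, real_inner_smul_right, Matrix.cons_val, om_J, QQ]
      ring
    rw [this, abs_mul, abs_of_nonneg (sq_nonneg r)]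
    have h3 : |QQ a n y| ≤ ε := hy
    have h4 : r ^ 2 ≤ 1 := by nlinarith [hr.1, hr.2]
    nlinarith [abs_nonneg (QQ a n y)]

theorem main (c : ℝ) (hc : 0 < c) : ∃ p₀ : ℕ, ∀ p ≥ p₀, ∀ Γ : Set E4, IsConvexIn p Γ →
    (volume : Measure E4).toSphere (Subtype.val ⁻¹' Γ) <
      ENNReal.ofReal c * (volume : Measure E4).toSphere univ := by
  set T := ENNReal.ofReal c * (volume : Measure E4).toSphere univ with hT
  have T0 : 0 < T := by
    refine ENNReal.mul_pos (by simpa using hc) ?_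
    rw [Ne, Measure.measure_univ_eq_zero]
    exact Measure.toSphere_ne_zero _
  obtain ⟨ε, hε, hB⟩ := BB_small (c := T / 4) (ENNReal.div_pos T0.ne' (by simp))
  obtain ⟨η, hη, hηε⟩ : ∃ η > 0, 3 * η + η ^ 2 ≤ ε := by
    refine ⟨min 1 (ε / 4), by positivity, ?_⟩
    nlinarith [min_le_left 1 (ε / 4), min_le_right 1 (ε / 4), lt_min one_pos (by positivity : 0 < ε / 4)]
  obtain ⟨N, hN⟩ := exists_nat_gt (π ^ 2 / (2 * η ^ 2))
  refine ⟨N + 4, fun p hp Γ h => ?_⟩
  have hp0 : 0 < p := by omega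
  have hp4 : (4 : ℝ) ≤ p := by exact_mod_cast (by omega : 4 ≤ p)
  have hpN : (N : ℝ) ≤ p := by exact_mod_cast (by omega : N ≤ p)
  have hpi := pi_pos
  have key : ∀ y z : E4, ‖y‖ = 1 → ‖z‖ = 1 → Best p y z → |om y z| ≤ η ^ 2 := by
    intro y z ny nz b
    have h1 := best_om ny nz b
    set θ := 2 * π / p with hθ
    have θ0 : 0 < θ := by positivity
    have θ1 : θ ≤ π / 2 := by
      rw [hθ, div_le_div_iff₀ (by positivity) (by norm_num)]
      nlinarith
    have h2 := mul_le_sin θ0.le θ1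
    have h3 := one_sub_sq_div_two_le_cos (x := θ)
    have h4 : π * θ ≤ 4 * η ^ 2 := by
      rw [div_lt_iff₀ (by positivity)] at hN
      rw [hθ, mul_div_assoc', div_le_iff₀ (by positivity)]
      nlinarith [sq_nonneg η]
    have h5 : 2 / π * θ * |om y z| ≤ θ ^ 2 / 2 :=
      (mul_le_mul_of_nonneg_right h2 (abs_nonneg _)).trans (by linarith)
    have h6 : |om y z| ≤ π * θ / 4 := by
      rw [div_mul_eq_mul_div, div_mul_eq_mul_div, div_le_iff₀ hpi] at h5
      nlinarith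
    linarith
  rcases Γ.eq_empty_or_nonempty with rfl | ⟨a, ha⟩
  · simpa using T0
  have na := (h.1 a ha).1
  obtain ⟨n, nn, h1, h2, h3⟩ := frame (S := {y ∈ Γ | Best p a y}) na (fun y hy => (h.1 y hy.1).1) hη
    (fun y hy => key a y na (h.1 y hy.1).1 hy.2)
    (fun y hy z hz => key y z (h.1 y hy.1).1 (h.1 z hz.1).1
      (best_trans hp0 h ha hy.1 hz.1 hy.2 hz.2))
  have sub : Γ ⊆ {y | |QQ a n y| ≤ ε} := by
    intro y hy
    obtain ⟨z, hz, bz⟩ := exists_best hp0 a y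
    have := h3 z ⟨(h.1 y hy).2 z hz, bz⟩
    obtain ⟨k, rfl⟩ := hz
    rw [QQ_rot] at this
    exact this.trans hηε
  refine lt_of_le_of_lt ((measure_mono (preimage_mono sub)).trans
    (meas_bound na nn h1 h2 ε hε.le)) ?_
  rw [mul_comm]
  exact ENNReal.mul_lt_of_lt_div hB

end Pool.Agent.H.MP_6c73b3_gt
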